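import Pool.Agent.W547.GAW.Main

/-!
# The Galois Lie algebra of surfaces and an arbitrary motive of small rank: linear algebra
-/

open Matrix Finset Module

namespace Pool.Agent.W547.GAR

open Pool.Agent.W544.PG Pool.Agent.W637.PG Pool.Agent.W547.GAL Pool.Agent.W547.GAW

noncomputable section

/-- skew matrices -/
def skewS (k : ℕ) : Submodule ℂ (Matrix (Fin k) (Fin k) ℂ) where
  carrier := {z | zᵀ = -z}
  zero_mem' := by simp
  add_mem' := by
    intro y z hy hz
    change (y + z)ᵀ = -(y + z)
    rw [Matrix.transpose_add, show yᵀ = -y from hy, show zᵀ = -z from hz, neg_add]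
  smul_mem' := by
    intro c y hy
    change (c • y)ᵀ = -(c • y)
    rw [Matrix.transpose_smul, show yᵀ = -y from hy, smul_neg]

/-- the skew matrix with given entries above the diagonal -/
def skewOf (k : ℕ) : ({x : Fin k × Fin k // x.1 < x.2} → ℂ) →ₗ[ℂ] Matrix (Fin k) (Fin k) ℂ where
  toFun f := Matrix.of fun a b =>
    if h : a < b then f ⟨(a, b), h⟩ else if h : b < a then -f ⟨(b, a), h⟩ else 0
  map_add' f g := by
    ext a b
    simp only [Matrix.of_apply, Matrix.add_apply, Pi.add_apply]
    split_ifs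
    · rfl
    · ring
    · ring
  map_smul' c f := by
    ext a b
    simp only [Matrix.of_apply, Matrix.smul_apply, Pi.smul_apply, smul_eq_mul, RingHom.id_apply]
    split_ifs
    · rfl
    · ring
    · ring

theorem skewOf_mem (k : ℕ) (f : {x : Fin k × Fin k // x.1 < x.2} → ℂ) :
    skewOf k f ∈ skewS k := by
  change (skewOf k f)ᵀ = -(skewOf k f)
  ext a b
  change (if h : b < a then f ⟨(b, a), h⟩ else if h : a < b then -f ⟨(a, b), h⟩ else 0) =
    -(if h : a < b then f ⟨(a, b), h⟩ else if h : b < a then -f ⟨(b, a), h⟩ else 0)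
  rcases lt_trichotomy a b with h | h | h
  · rw [dif_neg (not_lt.2 h.le), dif_pos h, dif_pos h]
  · subst h
    rw [dif_neg (lt_irrefl _), dif_neg (lt_irrefl _), neg_zero]
  · rw [dif_pos h, dif_neg (not_lt.2 h.le), dif_pos h, neg_neg]

theorem card_lt (k : ℕ) : k * k - k ≤ 2 * Fintype.card {x : Fin k × Fin k // x.1 < x.2} := by
  have h1 : Fintype.card {x : Fin k × Fin k // x.1 < x.2} =
      (univ.filter fun x : Fin k × Fin k => x.1 < x.2).card := Fintype.card_subtype _
  have h2 : (univ.filter fun x : Fin k × Fin k => x.2 < x.1).card =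
      (univ.filter fun x : Fin k × Fin k => x.1 < x.2).card := by
    refine Finset.card_bij (fun x _ => (x.2, x.1)) ?_ ?_ ?_
    · intro x hx
      simpa using hx
    · intro x _ y _ h
      have h3 := congrArg Prod.fst h
      have h4 := congrArg Prod.snd h
      exact Prod.ext h4 h3
    · intro x hx
      exact ⟨(x.2, x.1), by simpa using hx, rfl⟩
  have h3 : (univ : Finset (Fin k)).offDiag ⊆
      (univ.filter fun x : Fin k × Fin k => x.1 < x.2) ∪
        (univ.filter fun x : Fin k × Fin k => x.2 < x.1) := by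
    intro x hx
    rw [Finset.mem_offDiag] at hx
    rw [Finset.mem_union, Finset.mem_filter, Finset.mem_filter]
    rcases lt_or_gt_of_ne hx.2.2 with h | h
    · exact Or.inl ⟨mem_univ _, h⟩
    · exact Or.inr ⟨mem_univ _, h⟩
  have h4 := Finset.card_le_card h3
  have h5 := Finset.card_union_le (univ.filter fun x : Fin k × Fin k => x.1 < x.2)
    (univ.filter fun x : Fin k × Fin k => x.2 < x.1)
  rw [Finset.offDiag_card, Finset.card_univ, Fintype.card_fin] at h4
  rw [h1]
  omega

theorem finrank_skew (k : ℕ) : k * k - k ≤ 2 * finrank ℂ (skewS k) := by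
  have h1 : finrank ℂ ({x : Fin k × Fin k // x.1 < x.2} → ℂ) ≤ finrank ℂ (skewS k) := by
    refine LinearMap.finrank_le_finrank_of_injective
      (f := (skewOf k).codRestrict (skewS k) (skewOf_mem k)) ?_
    intro f g hfg
    have h2 : skewOf k f = skewOf k g := congrArg Subtype.val hfg
    funext x
    have h3 := congrFun (congrFun h2 x.1.1) x.1.2
    change (if h : x.1.1 < x.1.2 then f ⟨(x.1.1, x.1.2), h⟩ else _) =
      (if h : x.1.1 < x.1.2 then g ⟨(x.1.1, x.1.2), h⟩ else _) at h3
    rw [dif_pos x.2, dif_pos x.2] at h3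
    exact h3
  rw [Module.finrank_fintype_fun_eq_card] at h1
  have := card_lt k
  omega

/-- **The key lemma**, orthonormal coordinates: a Lie algebra of pairs whose projection to `T` is
the sum of the `so(T_i)` contains the sum of the `so(T_i)`, if the dimension of the space of the
second components is smaller than those of the `so(T_i)`. -/
theorem keyAbs3 {n w r : ℕ} (c : Fin n → Fin r) (p q : Fin r → ℕ)
    (hrk : ∀ i, (univ.filter fun a => c a = i).card = 2 * p i + q i)
    (h3 : ∀ i, 3 ≤ 2 * p i + q i) (hm : ∀ i, 2 * p i + q i ≠ 4)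
    (M : Submodule ℂ (Du n w)) (B : Submodule ℂ (Matrix (Fin w) (Fin w) ℂ))
    (hMB : ∀ a ∈ M, a.2 ∈ B)
    (hw : ∀ i, 2 * finrank ℂ B < (2 * p i + q i) * (2 * p i + q i) - (2 * p i + q i))
    (hlie : ∀ a ∈ M, ∀ b ∈ M, br2 a b ∈ M)
    (hfull : ∀ Z : Matrix (Fin n) (Fin n) ℂ, Zᵀ = -Z → BD c Z → ∃ V, (Z, V) ∈ M)
    (Z : Matrix (Fin n) (Fin n) ℂ) (hZ : Zᵀ = -Z) (hZc : BD c Z) : (Z, 0) ∈ M := by
  have hbr : ∀ Z Z' : Matrix (Fin n) (Fin n) ℂ, Zᵀ = -Z → BD c Z → (Z', 0) ∈ M →
      (Z * Z' - Z' * Z, 0) ∈ M := by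
    intro Z Z' h1 h2 h3
    obtain ⟨V, h4⟩ := hfull Z h1 h2
    have h5 := hlie _ h4 _ h3
    unfold br2 at h5
    simpa using h5
  choose e he using fun i => exists_enum c i (hrk i)
  have hblock : ∀ (i : Fin r) (z : Matrix (Fin (2 * p i + q i)) (Fin (2 * p i + q i)) ℂ),
      zᵀ = -z → (sel (e i) * z * (sel (e i))ᵀ, 0) ∈ M := by
    intro i z hz
    let J : Submodule ℂ (Matrix (Fin (2 * p i + q i)) (Fin (2 * p i + q i)) ℂ) :=
      { carrier := {z | zᵀ = -z ∧ (sel (e i) * z * (sel (e i))ᵀ, 0) ∈ M}
        zero_mem' := by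
          refine ⟨by simp, ?_⟩
          rw [Matrix.mul_zero, Matrix.zero_mul]
          exact M.zero_mem
        add_mem' := by
          rintro y z ⟨hy1, hy2⟩ ⟨hz1, hz2⟩
          refine ⟨?_, ?_⟩
          · rw [Matrix.transpose_add, hy1, hz1, neg_add]
          · rw [Matrix.mul_add, Matrix.add_mul]
            have := M.add_mem hy2 hz2
            simpa using this
        smul_mem' := by
          rintro z y ⟨hy1, hy2⟩
          refine ⟨?_, ?_⟩
          · rw [Matrix.transpose_smul, hy1, smul_neg]
          · rw [Matrix.mul_smul, Matrix.smul_mul]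
            have := M.smul_mem z hy2
            simpa using this }
    have hJmem : ∀ y, y ∈ J ↔ (yᵀ = -y ∧ (sel (e i) * y * (sel (e i))ᵀ, 0) ∈ M) :=
      fun y => Iff.rfl
    have hsel : ∀ A : Matrix (Fin (2 * p i + q i)) (Fin (2 * p i + q i)) ℂ, Aᵀ = -A →
        (sel (e i) * A * (sel (e i))ᵀ)ᵀ = -(sel (e i) * A * (sel (e i))ᵀ) := by
      intro A hA
      rw [Matrix.transpose_mul, Matrix.transpose_mul, Matrix.transpose_transpose, hA,
        Matrix.neg_mul, Matrix.mul_neg, ← Matrix.mul_assoc]
    have h1 : z ∈ J := by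
      refine W589.PG.Sim.sim _ (h3 i) (hm i) J (fun y hy => hy.1) ?_ ?_ z hz
      · intro Z hZ y hy
        rw [hJmem] at hy ⊢
        refine ⟨?_, ?_⟩
        · unfold br
          rw [Matrix.transpose_sub, Matrix.transpose_mul, Matrix.transpose_mul, hZ, hy.1,
            neg_mul_neg, neg_mul_neg]
          abel
        · have h2 := hbr _ _ (hsel Z hZ) (sel_BD (he i) Z) hy.2
          have h3 : ∀ A B : Matrix (Fin (2 * p i + q i)) (Fin (2 * p i + q i)) ℂ,
              sel (e i) * A * (sel (e i))ᵀ * (sel (e i) * B * (sel (e i))ᵀ) =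
              sel (e i) * (A * B) * (sel (e i))ᵀ := by
            intro A B
            calc sel (e i) * A * (sel (e i))ᵀ * (sel (e i) * B * (sel (e i))ᵀ) =
                sel (e i) * A * ((sel (e i))ᵀ * sel (e i)) * B * (sel (e i))ᵀ := by
                  simp only [Matrix.mul_assoc]
              _ = _ := by
                  rw [sel_T_sel _ (he i).inj, Matrix.mul_one]
                  simp only [Matrix.mul_assoc]
          rw [h3, h3, ← Matrix.sub_mul, ← Matrix.mul_sub] at h2
          exact h2
      · intro hbot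
        let M' : Submodule ℂ (Matrix (Fin (2 * p i + q i)) (Fin (2 * p i + q i)) ℂ ×
            Matrix (Fin w) (Fin w) ℂ) :=
          { carrier := {a | a.1 ∈ skewS (2 * p i + q i) ∧
              (sel (e i) * a.1 * (sel (e i))ᵀ, a.2) ∈ M}
            zero_mem' := by
              refine ⟨Submodule.zero_mem _, ?_⟩
              change (sel (e i) * 0 * (sel (e i))ᵀ, (0 : Matrix (Fin w) (Fin w) ℂ)) ∈ M
              rw [Matrix.mul_zero, Matrix.zero_mul]
              exact M.zero_mem
            add_mem' := by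
              rintro y z ⟨hy1, hy2⟩ ⟨hz1, hz2⟩
              refine ⟨Submodule.add_mem _ hy1 hz1, ?_⟩
              change (sel (e i) * (y.1 + z.1) * (sel (e i))ᵀ, y.2 + z.2) ∈ M
              rw [Matrix.mul_add, Matrix.add_mul]
              exact M.add_mem hy2 hz2
            smul_mem' := by
              rintro z y ⟨hy1, hy2⟩
              refine ⟨Submodule.smul_mem _ z hy1, ?_⟩
              change (sel (e i) * (z • y.1) * (sel (e i))ᵀ, z • y.2) ∈ M
              rw [Matrix.mul_smul, Matrix.smul_mul]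
              exact M.smul_mem z hy2 }
        have g1 : finrank ℂ (skewS (2 * p i + q i)) ≤ finrank ℂ M' := by
          let φ : M' →ₗ[ℂ] skewS (2 * p i + q i) :=
            { toFun := fun a => ⟨a.1.1, a.2.1⟩
              map_add' := fun _ _ => rfl
              map_smul' := fun _ _ => rfl }
          refine LinearMap.finrank_le_finrank_of_surjective (f := φ) ?_
          rintro ⟨z, hz⟩
          obtain ⟨V, hV⟩ := hfull _ (hsel z hz) (sel_BD (he i) z)
          exact ⟨⟨(z, V), hz, hV⟩, rfl⟩
        have g2 : finrank ℂ M' ≤ finrank ℂ B := by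
          let φ : M' →ₗ[ℂ] B :=
            { toFun := fun a => ⟨a.1.2, hMB _ a.2.2⟩
              map_add' := fun _ _ => rfl
              map_smul' := fun _ _ => rfl }
          refine LinearMap.finrank_le_finrank_of_injective (f := φ) ?_
          rw [injective_iff_map_eq_zero]
          rintro ⟨⟨z, V⟩, hz, hV⟩ h0
          have h0' : V = 0 := congrArg Subtype.val h0
          subst h0'
          have hzJ : z ∈ J := ⟨hz, hV⟩
          rw [hbot, Submodule.mem_bot] at hzJ
          subst hzJ
          rfl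
        have g3 := finrank_skew (2 * p i + q i)
        have g4 := hw i
        omega
    exact h1.2
  rw [sel_dec (fun i => he i) hZc]
  have h1 : ((∑ i, sel (e i) * Z.submatrix (e i) (e i) * (sel (e i))ᵀ,
      (0 : Matrix (Fin w) (Fin w) ℂ)) : Du n w) =
      ∑ i, (sel (e i) * Z.submatrix (e i) (e i) * (sel (e i))ᵀ,
        (0 : Matrix (Fin w) (Fin w) ℂ)) := by
    refine Prod.ext ?_ ?_
    · rw [Prod.fst_sum]
    · rw [Prod.snd_sum]
      simp
  rw [h1]
  refine Submodule.sum_mem _ fun i _ => ?_
  apply hblock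
  ext a b
  exact congrFun (congrFun hZ (e i a)) (e i b)

end

end Pool.Agent.W547.GAR
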