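import Pool.Agent.W547.GAR.Key

/-!
# The l-adic monodromy group of surfaces and an arbitrary motive of small dimension
-/

open Matrix Finset Module

namespace Pool.Agent.W547.GAR

open Pool.Agent.W544.PG Pool.Agent.W544.FF Pool.Agent.W547.GAL Pool.Agent.W547.GAW

noncomputable section

/-- A representation `W` of `Γ`, together with the surfaces of `T`: the Lie algebra `M` of the
image of `Γ` in the automorphisms of `T ⊕ W`. -/
structure GJ {K : Type} [Field K] {Γ : Type} [Group Γ] [TopologicalSpace Γ] {n : ℕ}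
    (T : GR K Γ n) (w : ℕ) where
  /-- the representation -/
  ρ : Γ →* Matrix (Fin w) (Fin w) K
  /-- the Lie algebra of the image in the automorphisms of `T ⊕ W` -/
  M : Submodule K (Matrix (Fin n) (Fin n) K × Matrix (Fin w) (Fin w) K)
  lie : ∀ a ∈ M, ∀ b ∈ M, (a.1 * b.1 - b.1 * a.1, a.2 * b.2 - b.2 * a.2) ∈ M
  fst : ∀ a ∈ M, a.1 ∈ T.L
  proj : ∀ z ∈ T.L, ∃ a ∈ M, a.1 = z
  tate : ∀ (s m : ℕ) (t : (Fin m → Fin s ⊕ Fin n) → Fin w → K),
    IsTateW T ρ t ↔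
    ∀ a ∈ M, ∀ J L, actK (fromBlocks 0 0 0 a.1) (fun J => t J L) J = (a.2 *ᵥ t J) L

section defs
variable {K : Type} [Field K] {Γ : Type} [Group Γ] [TopologicalSpace Γ] {n w : ℕ} {T : GR K Γ n}

/-- the complexification of `M` -/
def GJ.MC (G : GJ T w) : Submodule ℂ (Du n w) :=
  Submodule.span ℂ {Y | ∃ a ∈ G.M, Y = (a.1.map T.ι, a.2.map T.ι)}

/-- the complexified Lie algebra of the image of `Γ` in the automorphisms of `W` -/
def GJ.NC (G : GJ T w) : Submodule ℂ (Matrix (Fin w) (Fin w) ℂ) :=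
  Submodule.span ℂ {V | ∃ a ∈ G.M, V = a.2.map T.ι}

end defs

variable {K : Type} [Field K] {Γ : Type} [Group Γ] [TopologicalSpace Γ] {n r w : ℕ}
  {T : GR K Γ n} {c : Fin n → Fin r} {p q : Fin r → ℕ}

theorem MC_lie3 (G : GJ T w) : ∀ a ∈ G.MC, ∀ b ∈ G.MC, br2 a b ∈ G.MC := by
  have h1 : ∀ a ∈ G.MC, ∀ b ∈ G.M, br2 a (b.1.map T.ι, b.2.map T.ι) ∈ G.MC := by
    intro a ha b hb
    unfold GJ.MC at ha
    induction ha using Submodule.span_induction with
    | mem a h =>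
      obtain ⟨z, hz, rfl⟩ := h
      refine Submodule.subset_span ⟨_, G.lie z hz b hb, ?_⟩
      unfold br2
      refine Prod.ext ?_ ?_
      · change z.1.map T.ι * b.1.map T.ι - b.1.map T.ι * z.1.map T.ι =
          (z.1 * b.1 - b.1 * z.1).map T.ι
        rw [← map_mulR, ← map_mulR]
        ext i j
        rw [Matrix.sub_apply, Matrix.map_apply, Matrix.map_apply, Matrix.map_apply,
          Matrix.sub_apply, map_sub]
      · change z.2.map T.ι * b.2.map T.ι - b.2.map T.ι * z.2.map T.ι =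
          (z.2 * b.2 - b.2 * z.2).map T.ι
        rw [← map_mulR, ← map_mulR]
        ext i j
        rw [Matrix.sub_apply, Matrix.map_apply, Matrix.map_apply, Matrix.map_apply,
          Matrix.sub_apply, map_sub]
    | zero =>
      rw [br2_zero_left]
      exact G.MC.zero_mem
    | add a a' _ _ h h' =>
      rw [br2_add_left]
      exact G.MC.add_mem h h'
    | smul x a _ h =>
      rw [br2_smul_left]
      exact G.MC.smul_mem x h
  intro a ha b hb
  unfold GJ.MC at hb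
  induction hb using Submodule.span_induction with
  | mem b h =>
    obtain ⟨z, hz, rfl⟩ := h
    exact h1 a ha z hz
  | zero =>
    rw [br2_neg, br2_zero_left, neg_zero]
    exact G.MC.zero_mem
  | add b b' _ _ h h' =>
    rw [br2_neg, br2_add_left, neg_add, ← br2_neg, ← br2_neg]
    exact G.MC.add_mem h h'
  | smul x b _ h =>
    rw [br2_neg, br2_smul_left, ← smul_neg, ← br2_neg]
    exact G.MC.smul_mem x h

theorem MC_lift3 (G : GJ T w) : ∀ Z ∈ T.LC, ∃ V, ((Z, V) : Du n w) ∈ G.MC := by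
  intro Z hZ
  unfold GR.LC at hZ
  induction hZ using Submodule.span_induction with
  | mem Z h =>
    obtain ⟨z, hz, rfl⟩ := h
    obtain ⟨a, ha, rfl⟩ := G.proj z hz
    exact ⟨a.2.map T.ι, Submodule.subset_span ⟨a, ha, rfl⟩⟩
  | zero => exact ⟨0, G.MC.zero_mem⟩
  | add a b _ _ ha hb =>
    obtain ⟨V, h1⟩ := ha
    obtain ⟨V', h2⟩ := hb
    exact ⟨V + V', G.MC.add_mem h1 h2⟩
  | smul x a _ ha =>
    obtain ⟨V, h1⟩ := ha
    exact ⟨x • V, G.MC.smul_mem x h1⟩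

theorem MC_fst (G : GJ T w) : ∀ a ∈ G.MC, a.1 ∈ T.LC := by
  intro a ha
  unfold GJ.MC at ha
  induction ha using Submodule.span_induction with
  | mem a h =>
    obtain ⟨z, hz, rfl⟩ := h
    exact Submodule.subset_span ⟨z.1, G.fst z hz, rfl⟩
  | zero => exact T.LC.zero_mem
  | add a b _ _ ha hb => exact T.LC.add_mem ha hb
  | smul x a _ ha => exact T.LC.smul_mem x ha

theorem MC_snd (G : GJ T w) : ∀ a ∈ G.MC, a.2 ∈ G.NC := by
  intro a ha
  unfold GJ.MC at ha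
  induction ha using Submodule.span_induction with
  | mem a h =>
    obtain ⟨z, hz, rfl⟩ := h
    exact Submodule.subset_span ⟨z, hz, rfl⟩
  | zero => exact G.NC.zero_mem
  | add a b _ _ ha hb => exact G.NC.add_mem ha hb
  | smul x a _ ha => exact G.NC.smul_mem x ha

theorem NC_lift (G : GJ T w) : ∀ V ∈ G.NC, ∃ Z, ((Z, V) : Du n w) ∈ G.MC := by
  intro V hV
  unfold GJ.NC at hV
  induction hV using Submodule.span_induction with
  | mem V h =>
    obtain ⟨a, ha, rfl⟩ := h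
    exact ⟨a.1.map T.ι, Submodule.subset_span ⟨a, ha, rfl⟩⟩
  | zero => exact ⟨0, G.MC.zero_mem⟩
  | add a b _ _ ha hb =>
    obtain ⟨V, h1⟩ := ha
    obtain ⟨V', h2⟩ := hb
    exact ⟨V + V', G.MC.add_mem h1 h2⟩
  | smul x a _ ha =>
    obtain ⟨V, h1⟩ := ha
    exact ⟨x • V, G.MC.smul_mem x h1⟩

/-- **The key lemma**: the joint Lie algebra contains the sum of the `so(T_i)`. -/
theorem key3 (G : GJ T w) (hT : T.Big c p q)
    (hw : ∀ i, 2 * finrank ℂ G.NC < (2 * p i + q i) * (2 * p i + q i) - (2 * p i + q i))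
    (Z : Matrix (Fin n) (Fin n) ℂ) (hZ : Zᵀ * T.Q.map T.ι + T.Q.map T.ι * Z = 0)
    (hZc : BD c Z) : ((Z, 0) : Du n w) ∈ G.MC := by
  obtain ⟨u, hub, huQ, -, -⟩ := id hT.red
  have e1 : u⁻¹ * u = 1 := by
    have h1 : (uᵀ * T.Q.map T.ι) * u = 1 := huQ
    have h2 : u⁻¹ = uᵀ * T.Q.map T.ι := Matrix.inv_eq_left_inv h1
    rw [h2]
    exact h1
  have e2 : u * u⁻¹ = 1 := mul_eq_one_comm.1 e1
  have hui : BD c u⁻¹ := W918.PG.bd_inv hub (by
    have h1 := congrArg Matrix.det e2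
    rw [Matrix.det_mul, Matrix.det_one] at h1
    exact IsUnit.of_mul_eq_one _ h1)
  have fwd : ∀ Z : Matrix (Fin n) (Fin n) ℂ, Zᵀ * T.Q.map T.ι + T.Q.map T.ι * Z = 0 →
      (u⁻¹ * Z * u)ᵀ = -(u⁻¹ * Z * u) := by
    intro Z hZ
    have h1 := cc_skew e2 _ Z hZ
    rw [huQ, Matrix.mul_one, Matrix.one_mul] at h1
    exact eq_neg_of_add_eq_zero_left h1
  have bwd : ∀ Z : Matrix (Fin n) (Fin n) ℂ, Zᵀ = -Z →
      (u * Z * u⁻¹)ᵀ * T.Q.map T.ι + T.Q.map T.ι * (u * Z * u⁻¹) = 0 := by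
    intro Z hZ
    have t1 : (u⁻¹)ᵀ * uᵀ = 1 := by rw [← Matrix.transpose_mul, e2, Matrix.transpose_one]
    have t3 : uᵀ * T.Q.map T.ι = u⁻¹ := by
      have h1 : (uᵀ * T.Q.map T.ι) * u = 1 := huQ
      exact (Matrix.inv_eq_left_inv h1).symm
    have t4 : T.Q.map T.ι * u = (u⁻¹)ᵀ := by
      calc T.Q.map T.ι * u = (u⁻¹)ᵀ * uᵀ * (T.Q.map T.ι * u) := by rw [t1, Matrix.one_mul]
        _ = (u⁻¹)ᵀ * (uᵀ * T.Q.map T.ι * u) := by simp only [Matrix.mul_assoc]
        _ = (u⁻¹)ᵀ := by rw [huQ, Matrix.mul_one]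
    rw [Matrix.transpose_mul, Matrix.transpose_mul, hZ]
    have h1 : (u⁻¹)ᵀ * (-Z * uᵀ) * T.Q.map T.ι = -((u⁻¹)ᵀ * Z * (uᵀ * T.Q.map T.ι)) := by
      simp only [Matrix.mul_assoc, Matrix.neg_mul, Matrix.mul_neg]
    have h2 : T.Q.map T.ι * (u * Z * u⁻¹) = (T.Q.map T.ι * u) * Z * u⁻¹ := by
      simp only [Matrix.mul_assoc]
    rw [h1, h2, t3, t4, neg_add_cancel]
  have mem : ∀ z : Du n w, z ∈ G.MC.comap (cT2 u u⁻¹) ↔
      ((u * z.1 * u⁻¹, z.2) : Du n w) ∈ G.MC := fun z => Iff.rfl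
  have hr : ∀ i, 3 ≤ 2 * p i + q i ∧ 2 * p i + q i ≠ 4 := by
    intro i
    rcases hT.num i with h | ⟨h0, h⟩
    · omega
    · have hlt : 2 * p i < q i := by
        by_contra h'
        rw [Nat.sub_eq_zero_of_le (not_lt.1 h'), zero_mul] at h
        omega
      refine ⟨by omega, fun h4 => ?_⟩
      have hp1 : p i = 1 := by omega
      have hq2 : q i = 2 := by omega
      rw [hp1, hq2] at hlt
      omega
  have key1 := keyAbs3 c p q hT.rk (fun i => (hr i).1) (fun i => (hr i).2)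
    (G.MC.comap (cT2 u u⁻¹)) G.NC (fun a ha => MC_snd G (u * a.1 * u⁻¹, a.2) ((mem a).1 ha)) hw
    ?_ ?_ (u⁻¹ * Z * u) (fwd Z hZ) ((hui.mul hZc).mul hub)
  · rw [mem] at key1
    simp only at key1
    rwa [cc_back e2] at key1
  · intro a ha b hb
    rw [mem] at ha hb ⊢
    have h1 := MC_lie3 G _ ha _ hb
    unfold br2 at h1 ⊢
    simp only at h1 ⊢
    rw [cc_mul e1, cc_mul e1, ← Matrix.sub_mul, ← Matrix.mul_sub] at h1
    exact h1
  · intro Z' hZ' hZc'
    obtain ⟨V, h1⟩ := MC_lift3 G (u * Z' * u⁻¹)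
      ((LC_iff hT _).2 ⟨bwd Z' hZ', (hub.mul hZc').mul hui⟩)
    exact ⟨V, h1⟩

/-- **The joint Lie algebra is the product.** -/
theorem main (G : GJ T w) (hT : T.Big c p q)
    (hw : ∀ i, 2 * finrank ℂ G.NC < (2 * p i + q i) * (2 * p i + q i) - (2 * p i + q i))
    (a : Du n w) :
    a ∈ G.MC ↔ (a.1ᵀ * T.Q.map T.ι + T.Q.map T.ι * a.1 = 0 ∧ BD c a.1) ∧ a.2 ∈ G.NC := by
  constructor
  · intro ha
    exact ⟨(LC_iff hT _).1 (MC_fst G a ha), MC_snd G a ha⟩
  · rintro ⟨⟨h1, h2⟩, h3⟩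
    obtain ⟨Z, hZ⟩ := NC_lift G _ h3
    obtain ⟨h4, h5⟩ := (LC_iff hT _).1 (MC_fst G _ hZ)
    have h6 := key3 G hT hw a.1 h1 h2
    have h7 := key3 G hT hw Z h4 h5
    have h8 := G.MC.add_mem (G.MC.sub_mem hZ h7) h6
    have h9 : (((Z, a.2) : Du n w) - (Z, 0)) + (a.1, 0) = a := by
      refine Prod.ext ?_ ?_
      · change Z - Z + a.1 = a.1
        rw [sub_self, zero_add]
      · change a.2 - 0 + 0 = a.2
        rw [sub_zero, add_zero]
    rwa [h9] at h8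

end

end Pool.Agent.W547.GAR
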